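import Mathlib
import Pool.Agent.TH888.R.Base

set_option autoImplicit false

/-!
# Row sums over all integers
-/

namespace Pool.Agent.R449.AI

open Finset Filter Topology MeasureTheory
open Pool.Agent.W66S (geo_sum)
open Pool.Agent.H305R2 (log_nat_tendsto)
open Pool.Agent.TH888.R (wt wt_nonneg wt_le_one loglog_tendsto q_div_log)

/-- one step of the logarithm -/
lemma step_log {n : ℕ} (hn : 1 ≤ n) : 1 / ((n : ℝ) + 1) ≤ Real.log ((n : ℝ) + 1) - Real.log n := by
  have hn0 : (0 : ℝ) < n := by exact_mod_cast hn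
  have h1 := Real.one_sub_inv_le_log_of_pos (show 0 < ((n : ℝ) + 1) / n by positivity)
  rw [Real.log_div (by positivity) hn0.ne'] at h1
  refine le_trans (le_of_eq ?_) h1
  field_simp
  ring

lemma sum_inv_Ico {a : ℕ} (ha : 1 ≤ a) : ∀ n ≥ a, ∑ p ∈ Ico (a + 1) (n + 1), 1 / (p : ℝ) ≤
    Real.log n - Real.log a := by
  intro n hn
  induction n, hn using Nat.le_induction with
  | base => simp
  | succ n hn ih =>
    rw [Finset.sum_Ico_succ_top (by omega)]
    have := step_log (n := n) (by omega)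
    push_cast
    linarith

/-- the reciprocals up to `n` -/
lemma sum_inv_le {n : ℕ} (hn : 1 ≤ n) : ∑ p ∈ Ico 1 (n + 1), 1 / (p : ℝ) ≤ 1 + Real.log n := by
  rw [Finset.sum_eq_sum_Ico_succ_bot (by omega)]
  have := sum_inv_Ico le_rfl n hn
  simp at this ⊢
  linarith

/-- the weights of the integers in a short window -/
lemma window {κ : ℝ} (hκ : 0 < κ) : ∀ᶠ q : ℕ in atTop, ∀ T : Finset ℕ,
    (∀ p ∈ T, κ * q / Real.log q < (p : ℝ) ∧ p < q) →
      ∑ p ∈ T, wt p ≤ Real.log q * (2 * Real.log (Real.log q)) := by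
  filter_upwards [(q_div_log hκ).eventually_ge_atTop 4, log_nat_tendsto.eventually_ge_atTop 1,
    loglog_tendsto.eventually_ge_atTop (Real.log (2 / κ)), eventually_ge_atTop 1] with q h1 h2 h3 hq1 T hT
  set A := κ * q / Real.log q with hA
  set a := ⌊A⌋₊ with ha
  have hA0 : 0 ≤ A := by linarith
  have ha1 : A < a + 1 := Nat.lt_floor_add_one _
  have ha2 : (a : ℝ) ≤ A := Nat.floor_le hA0
  have ha3 : 1 ≤ a := by
    have : (0 : ℝ) < a := by linarith
    exact_mod_cast this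
  have hq0 : (0 : ℝ) < q := by exact_mod_cast hq1
  have hl0 : 0 ≤ Real.log q := by linarith
  have hlq : 0 < Real.log q := by linarith
  have e1 : ∑ p ∈ T, wt p ≤ Real.log q * ∑ p ∈ T, 1 / (p : ℝ) := by
    rw [Finset.mul_sum]
    refine Finset.sum_le_sum fun p hp => ?_
    obtain ⟨h4, h5⟩ := hT p hp
    have hp0 : (0 : ℝ) < p := by linarith
    have h6 : Real.log p ≤ Real.log q := Real.log_le_log hp0 (by exact_mod_cast h5.le)
    unfold wt
    rw [mul_one_div]
    exact div_le_div_of_nonneg_right h6 hp0.le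
  rcases T.eq_empty_or_nonempty with hTe | ⟨p0, hp0⟩
  · subst hTe
    have : 0 ≤ Real.log (Real.log q) := Real.log_nonneg h2
    simp
    positivity
  have haq : a ≤ q - 1 := by
    obtain ⟨h4, h5⟩ := hT p0 hp0
    have : (a : ℝ) < p0 := by linarith
    have : a < p0 := by exact_mod_cast this
    omega
  have e2 : ∑ p ∈ T, 1 / (p : ℝ) ≤ ∑ p ∈ Ico (a + 1) (q - 1 + 1), 1 / (p : ℝ) := by
    refine Finset.sum_le_sum_of_subset_of_nonneg (fun p hp => ?_) fun _ _ _ => by positivity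
    obtain ⟨h4, h5⟩ := hT p hp
    have h6 : (a : ℝ) < p := by linarith
    have h7 : a < p := by exact_mod_cast h6
    rw [mem_Ico]
    omega
  have e3 := sum_inv_Ico ha3 (q - 1) haq
  have e4 : Real.log ((q - 1 : ℕ) : ℝ) ≤ Real.log q := by
    rcases Nat.eq_zero_or_pos (q - 1) with h | h
    · rw [h]; simpa using hl0
    · refine Real.log_le_log (by exact_mod_cast h) ?_
      exact_mod_cast (Nat.sub_le q 1)
  have e5 : Real.log (A / 2) ≤ Real.log a := Real.log_le_log (by linarith) (by linarith)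
  have e6 : Real.log (A / 2) = Real.log q - Real.log (Real.log q) - Real.log (2 / κ) := by
    have : A / 2 = (q / Real.log q) / (2 / κ) := by
      rw [hA]; field_simp
    rw [this, Real.log_div (by positivity) (by positivity), Real.log_div hq0.ne' hlq.ne']
  refine e1.trans (mul_le_mul_of_nonneg_left ?_ hl0)
  linarith

/-- row sums over all integers -/
lemma row_all {κ K : ℝ} (hκ : 0 < κ) (hK : 0 < K) {b : ℕ} (hb : 2 ≤ b) (J : ℕ → ℕ → ℝ) (P : ℕ)
    (hfar : ∀ q ≥ P, ∀ p : ℕ, (p : ℝ) ≤ κ * q / Real.log q → |J p q| ≤ K * (Real.log q / q ^ 2))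
    (hmid : ∀ p ≥ P, ∀ q : ℕ, 2 * p ≤ q → |J p q| ≤ K * ((Real.log p / p) * (Real.log q / q)))
    (hnear : ∀ p ≥ P, ∀ q : ℕ, p < q → q ≤ 2 * p →
      |J p q| ≤ K * ((Real.log p / p) ^ 2 + ((b : ℝ) ^ (q - p))⁻¹ * (Real.log p / p))) :
    ∃ C : ℝ, 0 < C ∧ ∃ P' : ℕ, P ≤ P' ∧ 3 ≤ P' ∧ (∀ q ≥ P', 1 ≤ Real.log (Real.log q)) ∧
      ∀ q ≥ P', ∀ T : Finset ℕ,
      (∀ p ∈ T, P' ≤ p ∧ p < q) → ∑ p ∈ T, |J p q| ≤
        C * (wt q * (Real.log q * Real.log (Real.log q))) := by
  obtain ⟨P3, hP3⟩ := eventually_atTop.1 ((log_nat_tendsto.eventually_ge_atTop 1).and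
    ((loglog_tendsto.eventually_ge_atTop 1).and (window hκ)))
  refine ⟨K * κ + 2 * K + 4 * K + 4 * K, by positivity, P + P3 + 3, by omega, by omega,
    fun q hq => (hP3 q (by omega)).2.1, fun q hq T hTm => ?_⟩
  obtain ⟨hlq, hllq, hwin⟩ := hP3 q (by omega)
  have hq3 : (3 : ℝ) ≤ q := by exact_mod_cast (by omega : 3 ≤ q)
  have hq0 : (0 : ℝ) < q := by linarith
  have hlq0 : 0 < Real.log q := by linarith
  set l := Real.log q with hl
  set l2 := Real.log l with hl2
  have hw : wt q = l / q := rfl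
  set w := wt q with hwd
  have hw0 : 0 < w := by rw [hw]; positivity
  classical
  set F := T.filter (fun p : ℕ => (p : ℝ) ≤ κ * q / l) with hF
  set M := T.filter (fun p : ℕ => κ * q / l < (p : ℝ) ∧ 2 * p ≤ q) with hM
  set N := T.filter (fun p : ℕ => q < 2 * p) with hN
  have hwp0 : ∀ p : ℕ, 0 ≤ Real.log p / p := fun p =>
    div_nonneg (Real.log_natCast_nonneg p) (Nat.cast_nonneg p)
  have hsub : T ⊆ (F ∪ M) ∪ N := by
    intro p hp
    rw [mem_union, mem_union]
    by_cases h1 : (p : ℝ) ≤ κ * q / l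
    · left; left; exact mem_filter.2 ⟨hp, h1⟩
    · by_cases h2 : 2 * p ≤ q
      · left; right; exact mem_filter.2 ⟨hp, not_le.1 h1, h2⟩
      · right; exact mem_filter.2 ⟨hp, by omega⟩
  have hsplit : ∑ p ∈ T, |J p q| ≤ ∑ p ∈ F, |J p q| + ∑ p ∈ M, |J p q| + ∑ p ∈ N, |J p q| := by
    have h0 : ∀ s t : Finset ℕ, ∑ p ∈ s ∪ t, |J p q| ≤ ∑ p ∈ s, |J p q| + ∑ p ∈ t, |J p q| := by
      intro s t
      rw [← Finset.sum_union_inter]
      have : 0 ≤ ∑ p ∈ s ∩ t, |J p q| := Finset.sum_nonneg fun _ _ => abs_nonneg _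
      linarith
    calc ∑ p ∈ T, |J p q| ≤ ∑ p ∈ (F ∪ M) ∪ N, |J p q| :=
          Finset.sum_le_sum_of_subset_of_nonneg hsub fun _ _ _ => abs_nonneg _
      _ ≤ ∑ p ∈ F ∪ M, |J p q| + ∑ p ∈ N, |J p q| := h0 _ _
      _ ≤ _ := by linarith [h0 F M]
  -- far
  have hsF : ∑ p ∈ F, |J p q| ≤ K * κ * w := by
    have hcard : (F.card : ℝ) ≤ κ * q / l := by
      have h1 : F ⊆ Finset.Icc 1 ⌊κ * q / l⌋₊ := by
        intro p hp
        rw [hF, mem_filter] at hp
        rw [mem_Icc, Nat.le_floor_iff (by positivity)]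
        have := (hTm p hp.1).1
        exact ⟨by omega, hp.2⟩
      have h2 := Finset.card_le_card h1
      rw [Nat.card_Icc] at h2
      calc (F.card : ℝ) ≤ (⌊κ * q / l⌋₊ : ℝ) := by exact_mod_cast (by omega)
        _ ≤ _ := Nat.floor_le (by positivity)
    calc ∑ p ∈ F, |J p q| ≤ ∑ p ∈ F, K * (l / q ^ 2) :=
          Finset.sum_le_sum fun p hp => hfar q (by omega) p (mem_filter.1 hp).2
      _ = F.card * (K * (l / q ^ 2)) := by rw [Finset.sum_const, nsmul_eq_mul]
      _ ≤ (κ * q / l) * (K * (l / q ^ 2)) := by gcongr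
      _ = K * κ * (1 / q) := by field_simp
      _ ≤ K * κ * w := by
          rw [hw]
          gcongr
  -- middle
  have hsM : ∑ p ∈ M, |J p q| ≤ K * (w * (l * (2 * l2))) := by
    have h1 : ∀ p ∈ M, |J p q| ≤ (K * w) * wt p := by
      intro p hp
      rw [hM, mem_filter] at hp
      refine (hmid p (by have := (hTm p hp.1).1; omega) q hp.2.2).trans (le_of_eq ?_)
      rw [hw]; unfold wt; ring
    have h2 : ∑ p ∈ M, wt p ≤ l * (2 * l2) := hwin M fun p hp => by
      rw [hM, mem_filter] at hp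
      exact ⟨hp.2.1, (hTm p hp.1).2⟩
    calc ∑ p ∈ M, |J p q| ≤ ∑ p ∈ M, (K * w) * wt p := Finset.sum_le_sum h1
      _ = (K * w) * ∑ p ∈ M, wt p := by rw [Finset.mul_sum]
      _ ≤ (K * w) * (l * (2 * l2)) := by gcongr
      _ = _ := by ring
  -- near
  have hsN : ∑ p ∈ N, |J p q| ≤ 4 * K * (w * l) + 4 * K * w := by
    have hNw : ∀ p ∈ N, Real.log p / p ≤ 2 * w := by
      intro p hp
      rw [hN, mem_filter] at hp
      have h1 := (hTm p hp.1)
      have hp0 : (0 : ℝ) < p := by exact_mod_cast (by omega : 0 < p)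
      have h2 : (q : ℝ) / 2 ≤ p := by
        have : (q : ℝ) < 2 * p := by exact_mod_cast hp.2
        linarith
      calc Real.log p / p ≤ l / (q / 2) := by
            refine div_le_div₀ hlq0.le ?_ (by positivity) h2
            exact Real.log_le_log hp0 (by exact_mod_cast h1.2.le)
        _ = 2 * w := by rw [hw]; field_simp
    have h1 : ∀ p ∈ N, |J p q| ≤ K * (4 * w ^ 2) + K * (2 * w) * ((b : ℝ) ^ (q - p))⁻¹ := by
      intro p hp
      have hpw := hNw p hp
      rw [hN, mem_filter] at hp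
      have h2 := hTm p hp.1
      have hwp : 0 ≤ Real.log p / p := hwp0 p
      refine (hnear p (by omega) q h2.2 (by omega)).trans ?_
      have h3 : (Real.log p / p) ^ 2 ≤ 4 * w ^ 2 := by nlinarith
      have h4 : ((b : ℝ) ^ (q - p))⁻¹ * (Real.log p / p) ≤ ((b : ℝ) ^ (q - p))⁻¹ * (2 * w) :=
        mul_le_mul_of_nonneg_left hpw (by positivity)
      nlinarith
    have hcard : (N.card : ℝ) ≤ q := by
      have h1 : N ⊆ Finset.range q := by
        intro p hp
        rw [hN, mem_filter] at hp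
        exact mem_range.2 (hTm p hp.1).2
      have h2 := Finset.card_le_card h1
      rw [Finset.card_range] at h2
      exact_mod_cast h2
    have hgeo := geo_sum hb q N fun p hp => by
      rw [hN, mem_filter] at hp
      exact (hTm p hp.1).2
    calc ∑ p ∈ N, |J p q| ≤ ∑ p ∈ N, (K * (4 * w ^ 2) + K * (2 * w) * ((b : ℝ) ^ (q - p))⁻¹) :=
          Finset.sum_le_sum h1
      _ = N.card * (K * (4 * w ^ 2)) + K * (2 * w) * ∑ p ∈ N, ((b : ℝ) ^ (q - p))⁻¹ := by
          rw [Finset.sum_add_distrib, Finset.sum_const, nsmul_eq_mul, Finset.mul_sum]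
      _ ≤ q * (K * (4 * w ^ 2)) + K * (2 * w) * 2 := by gcongr
      _ = 4 * K * (w * (w * q)) + 4 * K * w := by ring
      _ = 4 * K * (w * l) + 4 * K * w := by
          have : w * q = l := by rw [hw]; field_simp
          rw [this]
  have hll : 1 ≤ l * l2 := by nlinarith
  have k1 : w ≤ w * (l * l2) := by nlinarith
  have k2 : w * l ≤ w * (l * l2) := by
    refine mul_le_mul_of_nonneg_left ?_ hw0.le
    nlinarith
  calc ∑ p ∈ T, |J p q| ≤ K * κ * w + K * (w * (l * (2 * l2))) + (4 * K * (w * l) + 4 * K * w) := by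
        linarith
    _ ≤ K * κ * (w * (l * l2)) + K * (w * (l * (2 * l2))) + (4 * K * (w * (l * l2)) +
          4 * K * (w * (l * l2))) := by gcongr
    _ = _ := by ring

end Pool.Agent.R449.AI
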