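import Mathlib
import Pool.Agent.R449.AI.Sum

set_option autoImplicit false

/-!
# The law over all indices
-/

namespace Pool.Agent.R449.AI

open Finset Filter Topology MeasureTheory Asymptotics
open Pool.Agent.W66S (moment_rows)
open Pool.Agent.W66X (far_sh mid_sh corr_le one_sh int_bdd ysh measurable_ysh trans_shift pert8
  exp_ysh ae_of_exp')
open Pool.Agent.H447R2.ML (Sh sh_of ff_eq_floor)
open Pool.Agent.H305R2 (gg LL measurable_gg abs_gg_le_one LL_nonneg LL_cont roughPart
  LL_le_one ff measurable_ff ff_nonneg ff_le_one log_nat_tendsto)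
open Pool.Agent.TH888.R (wt wt_nonneg wt_le_one loglog_tendsto gr blocks Near LL_rate ae_windows
  one_le_gr gr_mono)

/-- the weight in the variance bound -/
noncomputable def vw (P q : ℕ) : ℝ :=
  if P ≤ q then wt q * (Real.log q * Real.log (Real.log q)) else 0

open Classical in
/-- the fluctuation bound on a window -/
theorem fluct {a : ℝ} (ha : 0 < a) {y y' : ℕ → ℝ → ℝ} (hym : ∀ p, Measurable (y p))
    (hfam : ∀ a0 a1 : ℝ, a0 < a1 → ∀ᶠ p : ℕ in atTop, Sh a a0 a1 p (y p) (y' p))
    (hw : ∀ b0 : ℝ, ∃ P : ℕ, ∀ p ≥ P, ∀ q ≥ P, p ≤ q → ∃ w : ℝ → ℝ, Measurable w ∧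
      MonotoneOn w (Set.Icc (a * q + b0 - 1) (a * q + b0 + 2)) ∧
      (∀ s ∈ Set.Icc (a * q + b0 - 1) (a * q + b0 + 2), ∀ t ∈ Set.Icc (a * q + b0 - 1) (a * q + b0 + 2),
        |w s - w t| ≤ 2 * |s - t|) ∧ w (a * q + b0 + 2) ≤ a * p + |b0| + 3 ∧
      ∀ t ∈ Set.Ioc b0 (b0 + 1), w (y q t) = y p t)
    (hnear : ∀ b0 : ℝ, ∃ K : ℝ, 0 < K ∧ ∃ P : ℕ, ∀ p ≥ P, ∀ q : ℕ, p < q → q ≤ 2 * p →
      ∫ t in Set.Ioc b0 (b0 + 1), ff p (y p t) * ff q (y q t) ≤
        K * ((Real.log p / p) ^ 2 + ((2 : ℝ) ^ (q - p))⁻¹ * (Real.log p / p))) (b0 : ℝ) (S : Set ℕ) :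
    ∃ P : ℕ, 3 ≤ P ∧ (∀ q ≥ P, 1 ≤ Real.log (Real.log q)) ∧
      ∀ᵐ t ∂(volume.restrict (Set.Ioc b0 (b0 + 1))), ∃ B : ℝ, 0 ≤ B ∧ ∀ n : ℕ,
        |∑ q ∈ range n, (if q ∈ S ∧ P ≤ q then ff q (y q t) - LL q (y q t) else 0)| ≤
        B * gr (∑ q ∈ range n, vw P q) := by
  obtain ⟨P0, hP0⟩ := eventually_atTop.1 (hfam (b0 - 1) (b0 + 2) (by linarith))
  obtain ⟨κ, K1, hκ, hK1, P1, h1⟩ := far_sh ha b0
  obtain ⟨K2, hK2, P2, h2⟩ := mid_sh ha b0
  obtain ⟨K3, hK3, P3, h3⟩ := hnear b0
  obtain ⟨K4, hK4, P4, hP43, h4⟩ := corr_le ha b0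
  obtain ⟨K5, hK5, P5, hP53, h5⟩ := one_sh ha b0
  obtain ⟨P6, h6⟩ := hw b0
  obtain ⟨P7, h7⟩ := eventually_atTop.1 (log_nat_tendsto.eventually_ge_atTop κ)
  have hmem : ∀ᵐ t ∂(volume.restrict (Set.Ioc b0 (b0 + 1))), t ∈ Set.Ioc b0 (b0 + 1) :=
    ae_restrict_mem measurableSet_Ioc
  set Q := P0 + P1 + P2 + P3 + P4 + P5 + P6 + P7 with hQ
  set J : ℕ → ℕ → ℝ := fun p q => if Q ≤ p then
    ∫ t in Set.Ioc b0 (b0 + 1), gg p (y p t) * gg q (y q t) else 0 with hJ
  have hw0 : ∀ m : ℕ, 0 ≤ Real.log m / m := fun m =>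
    div_nonneg (Real.log_natCast_nonneg m) (Nat.cast_nonneg m)
  set K := K1 + K2 + (K3 + 2 * K4) with hK
  obtain ⟨C, hC, P', hP', hP3', hll, hrow⟩ := row_all (κ := κ) (K := K) hκ (by positivity)
    (b := 2) le_rfl J Q
    (by
      intro q hq p hp
      have hr : 0 ≤ Real.log q / (q : ℝ) ^ 2 := div_nonneg (Real.log_natCast_nonneg q) (by positivity)
      simp only [hJ]
      split_ifs with hpQ
      · have hlq := h7 q (by omega)
        have hq0 : (0 : ℝ) < q := by exact_mod_cast (by omega : 0 < q)
        have hpq : p ≤ q := by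
          have hl : 0 < Real.log q := lt_of_lt_of_le hκ hlq
          have : (p : ℝ) ≤ q := by
            refine hp.trans ?_
            rw [div_le_iff₀ hl]
            nlinarith
          exact_mod_cast this
        obtain ⟨w, w1, w2, w3, w4, w5⟩ := h6 p (by omega) q (by omega) hpq
        refine (h1 q (by omega) p (y q) (y' q) (y p) w (hP0 q (by omega)) w1 w2 w3 hp w4 w5).trans ?_
        exact mul_le_mul_of_nonneg_right (by rw [hK]; linarith) hr
      · rw [abs_zero]; positivity)
    (by
      intro p hp q hq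
      simp only [hJ]
      rw [if_pos hp]
      refine (h2 p (by omega) q hq _ _ _ _ (hP0 p (by omega)) (hP0 q (by omega))).trans ?_
      exact mul_le_mul_of_nonneg_right (by rw [hK]; linarith) (mul_nonneg (hw0 p) (hw0 q)))
    (by
      intro p hp q hq hq2
      simp only [hJ]
      rw [if_pos hp]
      have e1 := h4 p (by omega) q (by omega) _ _ _ _ (hP0 p (by omega)) (hP0 q (by omega))
      have e2 := h3 p (by omega) q hq hq2
      have hp2 : (2 : ℝ) ≤ p := by exact_mod_cast (by omega : 2 ≤ p)
      have hp0 : (0 : ℝ) < p := by linarith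
      have hpq' : (p : ℝ) ≤ q := by exact_mod_cast hq.le
      have hwq : Real.log q / q ≤ 2 * (Real.log p / p) := by
        have hq2' : (q : ℝ) ≤ p * p := by
          have : (q : ℝ) ≤ 2 * p := by exact_mod_cast hq2
          nlinarith
        have hlq : Real.log q ≤ 2 * Real.log p := by
          calc Real.log q ≤ Real.log (p * p) := Real.log_le_log (by linarith) hq2'
            _ = 2 * Real.log p := by rw [Real.log_mul hp0.ne' hp0.ne']; ring
        have hlp := Real.log_natCast_nonneg p
        calc Real.log q / q ≤ (2 * Real.log p) / p := div_le_div₀ (by positivity) hlq hp0 hpq'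
          _ = _ := by ring
      have hwp := hw0 p
      have e3 : K4 * ((Real.log p / p) * (Real.log q / q)) ≤ 2 * K4 * (Real.log p / p) ^ 2 := by
        calc K4 * ((Real.log p / p) * (Real.log q / q)) ≤
              K4 * ((Real.log p / p) * (2 * (Real.log p / p))) := by gcongr
          _ = _ := by ring
      have e4 : 0 ≤ ((2 : ℝ) ^ (q - p))⁻¹ * (Real.log p / p) := by positivity
      have e5 : 0 ≤ (Real.log p / p) ^ 2 := sq_nonneg _
      push_cast
      rw [hK]
      calc _ ≤ _ := e1
        _ ≤ K3 * ((Real.log p / p) ^ 2 + ((2 : ℝ) ^ (q - p))⁻¹ * (Real.log p / p)) +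
            2 * K4 * (Real.log p / p) ^ 2 := add_le_add e2 e3
        _ ≤ _ := by nlinarith [mul_nonneg hK1.le e5, mul_nonneg hK2.le e5, mul_nonneg hK1.le e4,
            mul_nonneg hK2.le e4, mul_nonneg hK4.le e4])
  have hGm : ∀ q, Measurable (fun t : ℝ => gg q (y q t)) := fun q => (measurable_gg q).comp (hym q)
  have hdiag : ∀ q ≥ P', ∫ t in Set.Ioc b0 (b0 + 1), (gg q (y q t)) ^ 2 ≤ K5 * wt q := by
    intro q hq
    have e1 := (h5 q (by omega) _ _ (hP0 q (by omega))).2.2
    refine le_trans (setIntegral_mono_on ?_ ?_ measurableSet_Ioc fun t _ => ?_) e1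
    · refine int_bdd ((hGm q).pow_const 2) (M := 1) (fun t => ?_) _ _
      rw [abs_pow]
      exact pow_le_one₀ (abs_nonneg _) (abs_gg_le_one _ _)
    · refine int_bdd (hGm q).abs (M := 1) (fun t => ?_) _ _
      rw [abs_abs]
      exact abs_gg_le_one _ _
    · have h1 := abs_gg_le_one q (y q t)
      have h2 := abs_nonneg (gg q (y q t))
      rw [← sq_abs]
      nlinarith
  refine ⟨P', hP3', hll, ?_⟩
  have hv0 : ∀ q, 0 ≤ vw P' q := by
    intro q
    unfold vw
    split_ifs with h
    · have h1 := hll q h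
      have h2 := wt_nonneg q
      have h3 := Real.log_natCast_nonneg q
      positivity
    · exact le_rfl
  have hvw : ∀ q ≥ P', wt q ≤ vw P' q := by
    intro q hq
    unfold vw
    rw [if_pos hq]
    have h1 := hll q hq
    have h2 := wt_nonneg q
    have h3 : 1 ≤ Real.log q := by
      have h4 : 0 < Real.log q := Real.log_pos (by exact_mod_cast (by omega : 1 < q))
      have h5 := Real.log_le_sub_one_of_pos h4
      linarith
    nlinarith [mul_le_mul h3 h1 zero_le_one (by linarith : (0:ℝ) ≤ Real.log q)]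
  set cd : ℕ → Prop := fun q => q ∈ S ∧ P' ≤ q with hcd
  have key := blocks (μ := volume.restrict (Set.Ioc b0 (b0 + 1)))
    (f := fun q t => if cd q then ff q (y q t) else 0)
    (m := fun q t => if cd q then LL q (y q t) else 0) (φ := vw P')
    (B0 := 27) (K := K5) (C := K5 + 2 * C) hv0
    (fun q => by
      unfold vw
      split_ifs with hq
      · have hq3 : (3 : ℝ) ≤ q := by exact_mod_cast (by omega : 3 ≤ q)
        have hq0 : (0 : ℝ) < q := by linarith
        have hl : 0 < Real.log q := Real.log_pos (by linarith)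
        have h1 : Real.log q ≤ (q : ℝ) ^ ((1 : ℝ) / 3) / (1 / 3) :=
          Real.log_le_rpow_div hq0.le (by norm_num)
        have h2 : Real.log (Real.log q) ≤ Real.log q - 1 := Real.log_le_sub_one_of_pos hl
        have h3 : Real.log q ^ 3 ≤ 27 * q := by
          calc Real.log q ^ 3 ≤ ((q : ℝ) ^ ((1 : ℝ) / 3) / (1 / 3)) ^ 3 :=
                pow_le_pow_left₀ hl.le h1 3
            _ = 27 * ((q : ℝ) ^ ((1 : ℝ) / 3)) ^ 3 := by ring
            _ = 27 * q := by
                rw [← Real.rpow_natCast, ← Real.rpow_mul hq0.le]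
                norm_num
        have h4 : wt q * (Real.log q * Real.log (Real.log q)) ≤ Real.log q ^ 3 / q := by
          have h5 : wt q * (Real.log q * Real.log (Real.log q)) =
              Real.log q ^ 2 * Real.log (Real.log q) / q := by
            unfold wt; ring
          rw [h5]
          refine div_le_div_of_nonneg_right ?_ hq0.le
          have h6 : Real.log q ^ 2 * Real.log (Real.log q) ≤ Real.log q ^ 2 * Real.log q :=
            mul_le_mul_of_nonneg_left (by linarith) (sq_nonneg _)
          calc _ ≤ _ := h6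
            _ = _ := by ring
        refine h4.trans ?_
        rw [div_le_iff₀ hq0]
        exact h3
      · norm_num)
    ?_ hK5.le (by positivity)
    (fun q => by
      by_cases hq : cd q
      · simp only [if_pos hq]; exact (measurable_ff q).comp (hym q)
      · simp only [if_neg hq]; exact measurable_const)
    (fun q => by
      by_cases hq : cd q
      · simp only [if_pos hq]; exact (LL_cont q).measurable.comp (hym q)
      · simp only [if_neg hq]; exact measurable_const)
    (fun q t => by
      split_ifs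
      · exact ff_nonneg _ _
      · exact le_rfl)
    (fun q t => by
      split_ifs
      · exact LL_nonneg _ _
      · exact le_rfl)
    (fun q t => by
      split_ifs
      · exact abs_gg_le_one q (y q t)
      · norm_num)
    (by
      filter_upwards [hmem] with t ht q
      split_ifs with hq
      · have h1 := (h5 q (by have := hq.2; omega) _ _ (hP0 q (by have := hq.2; omega))).1 t ht
        exact h1.trans (mul_le_mul_of_nonneg_left (hvw q hq.2) hK5.le)
      · exact mul_nonneg hK5.le (hv0 q))
    (by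
      intro a b hab
      set T := (Ico a b).filter cd with hT
      have e1 : ∀ t, ∑ q ∈ Ico a b, ((if cd q then ff q (y q t) else 0) -
          if cd q then LL q (y q t) else 0) = ∑ q ∈ T, gg q (y q t) := by
        intro t
        rw [hT, Finset.sum_filter]
        refine Finset.sum_congr rfl fun q _ => ?_
        split_ifs
        · rfl
        · norm_num
      have e2 : ∑ q ∈ T, vw P' q ≤ ∑ q ∈ Ico a b, vw P' q :=
        Finset.sum_le_sum_of_subset_of_nonneg (Finset.filter_subset _ _) fun q _ _ => hv0 q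
      simp only [e1]
      refine (moment_rows (μ := volume.restrict (Set.Ioc b0 (b0 + 1)))
        (G := fun q t => gg q (y q t)) hGm (fun q t => abs_gg_le_one q _) T).trans ?_
      refine le_trans ?_ (mul_le_mul_of_nonneg_left e2 (by positivity))
      rw [Finset.mul_sum]
      refine Finset.sum_le_sum fun q hq => ?_
      rw [hT, mem_filter] at hq
      have hqP := hq.2.2
      have h1 := hdiag q hqP
      have h2 := hrow q hqP (T.filter (fun p => p < q)) (by
        intro p hp
        rw [mem_filter, hT, mem_filter] at hp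
        exact ⟨hp.1.2.2, hp.2⟩)
      have hsame : ∑ p ∈ T.filter (fun p => p < q),
          |∫ t in Set.Ioc b0 (b0 + 1), gg p (y p t) * gg q (y q t)| =
          ∑ p ∈ T.filter (fun p => p < q), |J p q| := by
        refine Finset.sum_congr rfl fun p hp => ?_
        rw [mem_filter, hT, mem_filter] at hp
        have := hp.1.2.2
        simp only [hJ]
        rw [if_pos (hP'.trans this)]
      have h3 := hvw q hqP
      have h4 : vw P' q = wt q * (Real.log q * Real.log (Real.log q)) := by
        unfold vw; rw [if_pos hqP]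
      rw [← h4] at h2
      rw [hsame]
      have h5 : K5 * wt q ≤ K5 * vw P' q := mul_le_mul_of_nonneg_left h3 hK5.le
      nlinarith)
  · filter_upwards [key] with t ht
    obtain ⟨B, hB1, hB2⟩ := ht
    refine ⟨B, hB1, fun n => ?_⟩
    refine le_trans (le_of_eq ?_) (hB2 n)
    congr 1
    refine Finset.sum_congr rfl fun q _ => ?_
    simp only [hcd]
    split_ifs
    · rfl
    · norm_num
  · rw [← not_summable_iff_tendsto_nat_atTop_of_nonneg hv0]
    intro hs
    have h1 : Summable (fun n : ℕ => vw P' (n + P')) := (summable_nat_add_iff P').2 hs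
    have h2 : Summable (fun n : ℕ => 1 / ((n + P' : ℕ) : ℝ)) := by
      refine Summable.of_nonneg_of_le (fun n => by positivity) (fun n => ?_) h1
      refine le_trans ?_ (hvw (n + P') (by omega))
      have h3 : (3 : ℝ) ≤ ((n + P' : ℕ) : ℝ) := by exact_mod_cast (by omega : 3 ≤ n + P')
      unfold wt
      refine div_le_div_of_nonneg_right ?_ (by linarith)
      rw [Real.le_log_iff_exp_le (by linarith)]
      have := Real.exp_one_lt_d9
      linarith
    exact Real.not_summable_one_div_natCast ((summable_nat_add_iff (f := fun n : ℕ => 1 / (n : ℝ)) P').1 h2)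

end Pool.Agent.R449.AI
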