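import Mathlib
import Pool.Agent.R449.AI.Law

set_option autoImplicit false

/-!
# Counting functions over all indices
-/

namespace Pool.Agent.R449.AI

open Finset Filter Topology MeasureTheory Asymptotics
open Pool.Agent.W66X (ysh measurable_ysh trans_shift pert8 exp_ysh ae_of_exp')
open Pool.Agent.H447R2.ML (Sh sh_of ff_eq_floor)
open Pool.Agent.H305R2 (gg LL measurable_gg abs_gg_le_one LL_nonneg LL_cont roughPart
  LL_le_one ff measurable_ff ff_nonneg ff_le_one log_nat_tendsto)
open Pool.Agent.TH888.R (wt wt_nonneg wt_le_one loglog_tendsto gr blocks Near LL_rate ae_windows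
  one_le_gr gr_mono)

/-- the error term -/
noncomputable def er (n : ℕ) : ℝ := Real.sqrt (Real.log n ^ 3 * Real.log (Real.log n) ^ 5)

lemma er_nonneg (n : ℕ) : 0 ≤ er n := Real.sqrt_nonneg _

lemma er_ge {n : ℕ} (h1 : 1 ≤ Real.log n) (h2 : 1 ≤ Real.log (Real.log n)) : Real.log n ≤ er n := by
  unfold er
  refine Real.le_sqrt_of_sq_le ?_
  have h3 : 1 ≤ Real.log (Real.log n) ^ 5 := one_le_pow₀ h2
  have h4 : 0 ≤ Real.log n ^ 2 := sq_nonneg _
  have h5 : Real.log n ^ 2 ≤ Real.log n ^ 3 := by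
    rw [pow_succ (Real.log n) 2]
    nlinarith
  nlinarith

lemma sum_inv_range {n : ℕ} (hn : 1 ≤ n) : ∑ q ∈ range (n + 1), 1 / (q : ℝ) ≤ 1 + Real.log n := by
  rw [Finset.range_eq_Ico, Finset.sum_eq_sum_Ico_succ_bot (by omega)]
  simpa using sum_inv_le hn

lemma gr_vw {P : ℕ} (hP3 : 3 ≤ P) (hP : ∀ q ≥ P, 1 ≤ Real.log (Real.log q)) : ∀ᶠ n : ℕ in atTop,
    gr (∑ q ∈ range (n + 1), vw P q) ≤ 98 * er n := by
  filter_upwards [log_nat_tendsto.eventually_ge_atTop 1, loglog_tendsto.eventually_ge_atTop 1,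
    eventually_ge_atTop 1] with n h1 h2 hn
  set L := Real.log n with hL
  set l := Real.log L with hl
  have hsum : ∑ q ∈ range (n + 1), vw P q ≤ 2 * (L ^ 3 * l) := by
    have h3 : ∀ q ∈ range (n + 1), vw P q ≤ (L ^ 2 * l) * (1 / (q : ℝ)) := by
      intro q hq
      rw [mem_range] at hq
      unfold vw
      split_ifs with h
      · have hq0 : (0 : ℝ) < q := by exact_mod_cast (by omega : 0 < q)
        have hq1 : (1 : ℝ) < q := by exact_mod_cast (by omega : 1 < q)
        have h4 : Real.log q ≤ L := Real.log_le_log hq0 (by exact_mod_cast (by omega : q ≤ n))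
        have h5 : 0 < Real.log q := Real.log_pos hq1
        have h6 : Real.log (Real.log q) ≤ l := Real.log_le_log h5 h4
        have h7 := hP q h
        unfold wt
        calc Real.log q / q * (Real.log q * Real.log (Real.log q)) =
              (Real.log q ^ 2 * Real.log (Real.log q)) * (1 / q) := by ring
          _ ≤ _ := by gcongr
      · positivity
    refine (Finset.sum_le_sum h3).trans ?_
    rw [← Finset.mul_sum]
    have h4 := sum_inv_range hn
    calc (L ^ 2 * l) * ∑ q ∈ range (n + 1), 1 / (q : ℝ) ≤ (L ^ 2 * l) * (1 + L) := by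
          refine mul_le_mul_of_nonneg_left h4 (by positivity)
      _ ≤ (L ^ 2 * l) * (2 * L) := by
          refine mul_le_mul_of_nonneg_left (by linarith) (by positivity)
      _ = _ := by ring
  have h0 : 0 ≤ ∑ q ∈ range (n + 1), vw P q := by
    refine Finset.sum_nonneg fun q _ => ?_
    unfold vw
    split_ifs with h
    · have h7 := hP q h
      have := wt_nonneg q
      have := Real.log_natCast_nonneg q
      positivity
    · exact le_rfl
  refine (gr_mono h0 hsum).trans ?_
  unfold gr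
  have hL3 : 1 ≤ L ^ 3 := one_le_pow₀ h1
  have hLl : 1 ≤ L ^ 3 * l := by nlinarith
  have h5 : 1 + 2 * (L ^ 3 * l) ≤ 3 * (L ^ 3 * l) := by linarith
  have h6 : Real.sqrt (1 + 2 * (L ^ 3 * l)) ≤ 2 * Real.sqrt (L ^ 3 * l) := by
    rw [Real.sqrt_le_left (by positivity), mul_pow, Real.sq_sqrt (by linarith)]
    linarith
  have h7 : Real.log (1 + 2 * (L ^ 3 * l)) ≤ 6 * l := by
    have h8 := Real.log_le_log (by linarith) h5
    rw [Real.log_mul (by norm_num) (by linarith), Real.log_mul (by linarith) (by linarith),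
      Real.log_pow] at h8
    have h9 := Real.log_le_sub_one_of_pos (show 0 < l by linarith)
    have h10 := Real.log_le_sub_one_of_pos (show (0 : ℝ) < 3 by norm_num)
    push_cast at h8
    rw [← hl] at h8
    linarith
  have h8 : 0 ≤ Real.log (1 + 2 * (L ^ 3 * l)) := Real.log_nonneg (by linarith)
  have h9 : er n = Real.sqrt (L ^ 3 * l) * l ^ 2 := by
    unfold er
    rw [← hL, ← hl, show L ^ 3 * l ^ 5 = (L ^ 3 * l) * (l ^ 2) ^ 2 by ring,
      Real.sqrt_mul (by linarith), Real.sqrt_sq (by positivity)]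
  rw [h9]
  calc Real.sqrt (1 + 2 * (L ^ 3 * l)) * (1 + Real.log (1 + 2 * (L ^ 3 * l))) ^ 2 ≤
        2 * Real.sqrt (L ^ 3 * l) * (7 * l) ^ 2 := by
        gcongr
        linarith
    _ = _ := by ring

open Classical in
/-- the sum of the weights over all `q ≤ n` in `S` -/
noncomputable def VA (S : Set ℕ) (n : ℕ) : ℝ := ∑ q ∈ range (n + 1), if q ∈ S then wt q else 0

open Classical in
/-- the number of `q ≤ n` in `S` with prime rough part of `s q` -/
noncomputable def cA (S : Set ℕ) (s : ℕ → ℕ) (n : ℕ) : ℕ :=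
  ((range (n + 1)).filter (fun q => q ∈ S ∧ (roughPart q (s q)).Prime)).card

open Classical in
lemma cA_eq (S : Set ℕ) (s : ℕ → ℕ) (n : ℕ) : (cA S s n : ℝ) =
    ∑ q ∈ range (n + 1), if q ∈ S then (if (roughPart q (s q)).Prime then (1 : ℝ) else 0) else 0 := by
  unfold cA
  rw [Finset.card_filter]
  push_cast
  refine Finset.sum_congr rfl fun q _ => ?_
  by_cases h1 : q ∈ S <;> by_cases h2 : (roughPart q (s q)).Prime <;> simp [h1, h2]

/-- **The law over all indices.** -/
theorem law_all {α κ C : ℝ} {g : ℕ → ℝ} (hα : 1 < α) (hκ0 : 0 ≤ κ) (hκ : κ < α)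
    (hg : ∀ p, |g p| ≤ C * κ ^ p) (hnear : Near α g) (S : Set ℕ) : ∀ᵐ β : ℝ, 0 < β →
      (fun n : ℕ => (cA S (fun q => ⌊β * α ^ q + g q⌋₊) n : ℝ) -
        Real.exp Real.eulerMascheroniConstant / Real.log α * VA S n) =O[atTop] er := by
  classical
  have hα0 : 0 < α := by linarith
  have hla : 0 < Real.log α := Real.log_pos hα
  set c := Real.exp Real.eulerMascheroniConstant / Real.log α with hc
  have hc0 : 0 < c := by positivity
  have h2 : ∀ᵐ t : ℝ, ∀ p m : ℕ, Real.exp t * α ^ p + g p ≠ m := by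
    have hnull : volume (⋃ p : ℕ, ⋃ m : ℕ, {t : ℝ | Real.exp t * α ^ p + g p = m}) = 0 := by
      refine Set.Countable.measure_zero ?_ volume
      refine Set.countable_iUnion fun p => Set.countable_iUnion fun m => ?_
      refine Set.Subsingleton.countable ?_
      intro s hs t ht
      simp only [Set.mem_ofPred_eq] at hs ht
      have h3 : Real.exp s * α ^ p = Real.exp t * α ^ p := by linarith
      exact Real.exp_injective (mul_right_cancel₀ (pow_pos hα0 p).ne' h3)
    have hae : ∀ᵐ t : ℝ, t ∉ ⋃ p : ℕ, ⋃ m : ℕ, {t : ℝ | Real.exp t * α ^ p + g p = m} := by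
      rw [ae_iff]
      refine measure_mono_null (fun t ht => ?_) hnull
      simpa only [Set.mem_ofPred_eq, not_not] using ht
    filter_upwards [hae] with t ht p m hm
    refine ht ?_
    simp only [Set.mem_iUnion]
    exact ⟨p, m, hm⟩
  refine ae_of_exp' (P := fun β : ℝ =>
    (fun n : ℕ => (cA S (fun q => ⌊β * α ^ q + g q⌋₊) n : ℝ) - c * VA S n) =O[atTop] er)
    (ae_windows fun b0 => ?_)
  have hfam : ∀ a0 a1 : ℝ, a0 < a1 → ∀ᶠ p : ℕ in atTop, Sh (Real.log α) a0 a1 p (ysh α g p) _ :=
    fun a0 a1 _ => sh_of (by linarith) hκ0 hκ hg a0 a1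
  obtain ⟨P, hP3, hPll, hfl⟩ := fluct hla (measurable_ysh α g) hfam
    (fun b0 => trans_shift hα hκ0 hκ hg b0) hnear b0 S
  obtain ⟨P0, hP0⟩ := eventually_atTop.1 (hfam (b0 - 1) (b0 + 2) (by linarith))
  obtain ⟨K8, hK8, hev8⟩ := LL_rate hla (|b0| + 3)
  obtain ⟨P8, h8⟩ := eventually_atTop.1 hev8
  have hmem : ∀ᵐ t ∂(volume.restrict (Set.Ioc b0 (b0 + 1))), t ∈ Set.Ioc b0 (b0 + 1) :=
    ae_restrict_mem measurableSet_Ioc
  filter_upwards [hfl, hmem, ae_restrict_of_ae h2] with t hB ht htn
  obtain ⟨B, hB0, hB1⟩ := hB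
  obtain ⟨P9, hP9⟩ := eventually_atTop.1 (pert8 hα0 hκ0 hκ hg t 8)
  set R := P + P0 + P8 + P9 with hR
  -- the difference of the terms
  have hD : ∀ q : ℕ, |((if q ∈ S then (if (roughPart q ⌊Real.exp t * α ^ q + g q⌋₊).Prime then (1 : ℝ)
      else 0) else 0) - c * (if q ∈ S then wt q else 0)) -
      (if q ∈ S ∧ P ≤ q then ff q (ysh α g q t) - LL q (ysh α g q t) else 0)| ≤
      (if q < R then 2 + c else 0) + K8 * (1 / (q : ℝ)) := by
    intro q
    have hK : 0 ≤ K8 * (1 / (q : ℝ)) := by positivity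
    by_cases hS : q ∈ S
    swap
    · simp only [hS, if_false, false_and, mul_zero, sub_zero, abs_zero]
      have : (0 : ℝ) ≤ if q < R then 2 + c else 0 := by split_ifs <;> linarith
      linarith
    by_cases hq : q < R
    · have hf : |(if q ∈ S ∧ P ≤ q then ff q (ysh α g q t) - LL q (ysh α g q t) else 0)| ≤ 1 := by
        split_ifs
        · exact abs_gg_le_one q (ysh α g q t)
        · norm_num
      have hi : |(if q ∈ S then (if (roughPart q ⌊Real.exp t * α ^ q + g q⌋₊).Prime then (1 : ℝ)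
          else 0) else 0)| ≤ 1 := by
        rw [if_pos hS]
        split_ifs <;> norm_num
      have hw : |c * (if q ∈ S then wt q else 0)| ≤ c := by
        rw [if_pos hS, abs_of_nonneg (mul_nonneg hc0.le (wt_nonneg q))]
        have := wt_le_one q
        nlinarith
      rw [if_pos hq]
      rw [abs_le] at hf hi hw ⊢
      constructor <;> linarith [hf.1, hf.2, hi.1, hi.2, hw.1, hw.2]
    · have hc1 : q ∈ S ∧ P ≤ q := ⟨hS, by omega⟩
      rw [if_neg hq, if_pos hc1, if_pos hS, if_pos hS]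
      have e0 := ff_eq_floor (p := q) (exp_ysh hα0 (hP9 q (by omega)) (le_refl t)).2.1
        (fun m => htn q m)
      have e1 : ff q (ysh α g q t) =
          if (roughPart q ⌊Real.exp t * α ^ q + g q⌋₊).Prime then (1 : ℝ) else 0 := e0
      have e2 := abs_le.1 ((hP0 q (by omega)).near t ⟨by linarith [ht.1], by linarith [ht.2]⟩)
      have e3 : |ysh α g q t - Real.log α * q| ≤ |b0| + 3 := by
        have e4 := abs_le.1 (le_refl |b0|)
        have e7 : 1 / (q : ℝ) ≤ 1 := by
          have : (1 : ℝ) ≤ q := by exact_mod_cast (by omega : 1 ≤ q)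
          rw [div_le_one (by linarith)]
          exact this
        rw [abs_le]
        constructor <;> linarith [e2.1, e2.2, ht.1, ht.2, e4.1, e4.2]
      have e5 := h8 q (by omega) (ysh α g q t) e3
      rw [← e1, zero_add, mul_one_div]
      have e6 : ff q (ysh α g q t) - c * wt q - (ff q (ysh α g q t) - LL q (ysh α g q t)) =
          LL q (ysh α g q t) - c * (Real.log q / q) := by
        unfold wt; ring
      rw [e6]
      exact e5
  refine IsBigO.of_bound (B * 98 + (R * (2 + c) + 2 * K8)) ?_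
  filter_upwards [gr_vw hP3 hPll, log_nat_tendsto.eventually_ge_atTop 1,
    loglog_tendsto.eventually_ge_atTop 1, eventually_ge_atTop 1] with n h3 h4 h5 hn
  have hern := er_ge h4 h5
  rw [Real.norm_eq_abs, Real.norm_of_nonneg (er_nonneg n)]
  have hsplit : (cA S (fun q => ⌊Real.exp t * α ^ q + g q⌋₊) n : ℝ) - c * VA S n =
      (∑ q ∈ range (n + 1), (((if q ∈ S then (if (roughPart q ⌊Real.exp t * α ^ q + g q⌋₊).Prime
        then (1 : ℝ) else 0) else 0) - c * (if q ∈ S then wt q else 0)) -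
      (if q ∈ S ∧ P ≤ q then ff q (ysh α g q t) - LL q (ysh α g q t) else 0))) +
      ∑ q ∈ range (n + 1), (if q ∈ S ∧ P ≤ q then ff q (ysh α g q t) - LL q (ysh α g q t) else 0) := by
    rw [cA_eq]
    unfold VA
    rw [Finset.sum_sub_distrib, Finset.sum_sub_distrib, Finset.mul_sum]
    ring
  rw [hsplit]
  refine (abs_add_le _ _).trans ?_
  have k1 : |∑ q ∈ range (n + 1), (((if q ∈ S then (if (roughPart q
      ⌊Real.exp t * α ^ q + g q⌋₊).Prime then (1 : ℝ) else 0) else 0) -
      c * (if q ∈ S then wt q else 0)) -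
      (if q ∈ S ∧ P ≤ q then ff q (ysh α g q t) - LL q (ysh α g q t) else 0))| ≤
      (R * (2 + c) + 2 * K8) * er n := by
    refine (Finset.abs_sum_le_sum_abs _ _).trans ((Finset.sum_le_sum fun q _ => hD q).trans ?_)
    rw [Finset.sum_add_distrib, ← Finset.mul_sum, ← Finset.sum_filter, Finset.sum_const, nsmul_eq_mul]
    have k3 : (((range (n + 1)).filter (fun q => q < R)).card : ℝ) ≤ R := by
      have : ((range (n + 1)).filter (fun q => q < R)).card ≤ R := by
        calc _ ≤ (range R).card := Finset.card_le_card fun q hq => by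
                rw [mem_filter] at hq
                exact mem_range.2 hq.2
          _ = R := Finset.card_range R
      exact_mod_cast this
    have k4 := sum_inv_range hn
    have k5 : K8 * ∑ q ∈ range (n + 1), 1 / (q : ℝ) ≤ K8 * (2 * er n) :=
      mul_le_mul_of_nonneg_left (by linarith) hK8.le
    have k6 : (((range (n + 1)).filter (fun q => q < R)).card : ℝ) * (2 + c) ≤ R * (2 + c) * er n := by
      have k7 : 0 ≤ (R : ℝ) * (2 + c) := by positivity
      calc _ ≤ (R : ℝ) * (2 + c) := mul_le_mul_of_nonneg_right k3 (by linarith)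
        _ ≤ _ := by nlinarith
    linarith
  have k2 : |∑ q ∈ range (n + 1), (if q ∈ S ∧ P ≤ q then ff q (ysh α g q t) - LL q (ysh α g q t)
      else 0)| ≤ B * 98 * er n := by
    refine (hB1 (n + 1)).trans ?_
    calc B * gr (∑ q ∈ range (n + 1), vw P q) ≤ B * (98 * er n) := mul_le_mul_of_nonneg_left h3 hB0
      _ = _ := by ring
  linarith

/-- one step of the square of the logarithm -/
lemma step_sq {n : ℕ} (hn : 1 ≤ n) :
    |wt (n + 1) - (Real.log ((n : ℝ) + 1) ^ 2 - Real.log n ^ 2) / 2| ≤ 2 / ((n : ℝ) + 1) := by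
  have hn1 : (1 : ℝ) ≤ n := by exact_mod_cast hn
  have hn0 : (0 : ℝ) < n := by linarith
  set L := Real.log ((n : ℝ) + 1) with hL
  set M := Real.log (n : ℝ) with hM
  have h1 : 1 / ((n : ℝ) + 1) ≤ L - M := step_log hn
  have h2 : L - M ≤ 1 / n := by
    have h3 := Real.log_le_sub_one_of_pos (show 0 < ((n : ℝ) + 1) / n by positivity)
    rw [Real.log_div (by positivity) hn0.ne'] at h3
    refine h3.trans (le_of_eq ?_)
    field_simp
    ring
  have h4 : L ≤ n := by
    have := Real.log_le_sub_one_of_pos (show 0 < (n : ℝ) + 1 by linarith)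
    linarith
  have h5 : 0 ≤ L := Real.log_nonneg (by linarith)
  have h6 : wt (n + 1) = L * (1 / ((n : ℝ) + 1)) := by
    unfold wt
    push_cast
    rw [mul_one_div]
  have h7 : (L ^ 2 - M ^ 2) / 2 = (L - M) * L - (L - M) ^ 2 / 2 := by ring
  rw [h6, h7]
  have h8 : 1 / (n : ℝ) - 1 / ((n : ℝ) + 1) = 1 / (n * ((n : ℝ) + 1)) := by field_simp; ring
  have h9 : L * (L - M - 1 / ((n : ℝ) + 1)) ≤ 1 / ((n : ℝ) + 1) := by
    calc L * (L - M - 1 / ((n : ℝ) + 1)) ≤ n * (1 / (n * ((n : ℝ) + 1))) := by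
          refine mul_le_mul h4 (by linarith) (by linarith) hn0.le
      _ = _ := by field_simp
  have h10 : 0 ≤ L * (L - M - 1 / ((n : ℝ) + 1)) := mul_nonneg h5 (by linarith)
  have h11 : (L - M) ^ 2 ≤ 2 * (1 / ((n : ℝ) + 1)) := by
    have h12 : 1 / (n : ℝ) ≤ 2 * (1 / ((n : ℝ) + 1)) := by
      rw [mul_one_div, div_le_div_iff₀ hn0 (by linarith)]
      linarith
    have h13 : 0 ≤ L - M := le_trans (by positivity) h1
    have h14 : L - M ≤ 1 := h2.trans (by rw [div_le_one hn0]; exact hn1)
    nlinarith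
  have h15 : 2 / ((n : ℝ) + 1) = 2 * (1 / ((n : ℝ) + 1)) := by ring
  rw [h15, abs_le]
  have h16 := sq_nonneg (L - M)
  constructor <;> nlinarith

open Classical in
lemma VA_univ {n : ℕ} (hn : 1 ≤ n) : |VA Set.univ n - Real.log n ^ 2 / 2| ≤ 2 * Real.log n := by
  induction n, hn using Nat.le_induction with
  | base =>
    unfold VA wt
    simp [Finset.sum_range_succ]
  | succ n hn ih =>
    have h1 : VA Set.univ (n + 1) = VA Set.univ n + wt (n + 1) := by
      unfold VA
      rw [Finset.sum_range_succ]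
      simp
    rw [h1]
    have h2 := step_sq hn
    have h3 := step_log hn
    push_cast
    have h4 : 2 / ((n : ℝ) + 1) = 2 * (1 / ((n : ℝ) + 1)) := by ring
    rw [h4] at h2
    rw [abs_le] at ih h2 ⊢
    constructor <;> linarith [ih.1, ih.2, h2.1, h2.2]

/-- the main term for all indices -/
lemma univ_form {F : ℕ → ℝ} {c : ℝ}
    (h : (fun n : ℕ => F n - c * VA Set.univ n) =O[atTop] er) :
    (fun n : ℕ => F n - c / 2 * Real.log n ^ 2) =O[atTop] er := by
  have h1 : (fun n : ℕ => c * (VA Set.univ n - Real.log n ^ 2 / 2)) =O[atTop] er := by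
    refine IsBigO.of_bound (|c| * 2) ?_
    filter_upwards [log_nat_tendsto.eventually_ge_atTop 1,
      loglog_tendsto.eventually_ge_atTop 1, eventually_ge_atTop 1] with n h4 h5 hn
    have hern := er_ge h4 h5
    rw [Real.norm_eq_abs, Real.norm_of_nonneg (er_nonneg n), abs_mul, mul_assoc]
    refine mul_le_mul_of_nonneg_left ((VA_univ hn).trans ?_) (abs_nonneg c)
    linarith
  refine (h.add h1).congr_left fun n => ?_
  ring

end Pool.Agent.R449.AI
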